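import Pool.Agent.W876.Cut.Ma

/-!
# MP_0eabd7_lc, Q1: a Boolean algebra with property (P) and cardinal sequence of length ω₁

Definitions (all in `Pool.Agent.W876.Cut.Defs`):

* `Quo J` is the quotient Boolean algebra `B/J` of `B` by the ideal `J`.
* `PropP B` is property (P): `B/J ≅ B` for every ideal `J` with `B/J` uncountable.
* `cb B β` is the Cantor-Bendixson ideal `I_β(B)`.
* `CardSeq B κ δ`: `B` is superatomic, `δ` is the least ordinal with `B/I_δ` finite, `B/I_β` has
  `κ` atoms for every `β < δ`, and `B/I_δ` has exactly one atom.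

The algebra used in the proof is the algebra of clopen subsets of `ω₁ + 1`.
-/

namespace Pool.Agent.Results.MP_0eabd7_lc.ClopenOmegaOne

open Pool.Agent.W876.Cut

theorem result : ∃ (B : Type) (_ : BooleanAlgebra B),
    PropP B ∧ CardSeq B (Cardinal.aleph 1) (Ordinal.omega.{0} 1) := by
  refine ⟨CO, inferInstance, propP_co, ?_⟩
  rw [← Cardinal.ord_aleph]
  exact cardSeq_co

end Pool.Agent.Results.MP_0eabd7_lc.ClopenOmegaOne
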