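import Pool.Agent.W876.Cut.Ma

/-!
# MP_0eabd7_lc, Q2: no algebra with property (P) of countable length above one, under MA

Definitions (all in `Pool.Agent.W876.Cut.Defs`):

* `Quo J` is the quotient Boolean algebra `B/J` of `B` by the ideal `J`.
* `PropP B` is property (P): `B/J ≅ B` for every ideal `J` with `B/J` uncountable.
* `cb B β` is the Cantor-Bendixson ideal `I_β(B)`.
* `CardSeq B κ δ`: `B` is superatomic, `δ` is the least ordinal with `B/I_δ` finite, `B/I_β` has
  `κ` atoms for every `β < δ`, and `B/I_δ` has exactly one atom.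
* `MAAlephOne` is Martin's axiom for `ℵ₁` dense sets.

In particular this covers `α = ω ^ γ`, `1 ≤ γ < ω₁`.
-/

namespace Pool.Agent.Results.MP_0eabd7_lc.CountableLengthMA

open Pool.Agent.W876.Cut

theorem result : MAAlephOne → ∀ α : Ordinal.{0}, 1 < α → α < Ordinal.omega 1 →
    ¬ ∃ (B : Type) (_ : BooleanAlgebra B), PropP B ∧ CardSeq B (Cardinal.aleph 1) α := by
  rintro hMA α h1 hα ⟨B, hB, hP, hC⟩
  rw [← Cardinal.ord_aleph] at hα
  exact no_cardSeq hMA h1 hα hP hC

end Pool.Agent.Results.MP_0eabd7_lc.CountableLengthMA
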